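import Pool.Agent.Lib.MP_8f66f0_al_FH.FinalF
import Pool.Agent.Lib.MP_8f66f0_al_FH.KAll

/-! # Vanishing of the Whitehead group of amalgams, HNN extensions and elementary amenable
extensions without coherence -/

set_option autoImplicit false

namespace Pool.Agent.Results.MP_8f66f0_al.AmalgamVanishing

open Pool.Agent.WhVan

/-- Let `Γ` belong to the least class `CE` of groups which contains all groups `G` such that
`K_1(LG)` is generated by the units of `L` and the elements of `G` for all Euclidean domains `L`
(for example the trivial group) and is closed under

* directed colimits (with arbitrary structure maps);
* amalgams `A *_E B` and HNN extensions with associated subgroup `E` such that `A`, `B`, `E` are in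
  the class and for some `k` the stabilizer of every reduced path with `k + 1` edges in the
  Bass-Serre tree is contained in a subgroup which belongs to `NN`;
* elementary amenable quotients: if `θ` is a homomorphism from `G` to an elementary amenable group
  and all subgroups `U` of `G` with finite image `θ(U)` are in the class and in `NN`, then `G` is
  in the class.

Here `NN` is the least class which contains all groups of finite cohomological dimension and all
groups for which `ℤ` has a finite resolution by permutation modules with stabilizers in `NN`, and is
closed under isomorphism, directed unions, and all amalgams and HNN extensions. Then `K_1(LΓ)` is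
generated by the units of `L` and the elements of `Γ` for all Euclidean domains `L`. For `L = ℤ` this
is the vanishing of the Whitehead group of `Γ`, in the form of the frozen statement. All
torsion-free elementary amenable groups are in the class `CE` (second part). -/
theorem result (Γ : Type) [Group Γ] :
    (CE Γ → ∀ (L : Type) [CommRing L] [IsDomain L], IsEuc L → K1Units L Γ) ∧
    (EA Γ → (∀ g : Γ, ∀ n : ℕ, 0 < n → g ^ n = 1 → g = 1) → CE Γ) :=
  ⟨fun h L _ _ hL => ce_main FH.ksAff h L hL, fun h ht => ce_ea h ht⟩

end Pool.Agent.Results.MP_8f66f0_al.AmalgamVanishing
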