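import Pool.Agent.Lib.MP_8f66f0_al_LQ2.All

/-! # Vanishing of the Whitehead group of all groups which are built from torsion free linear
groups by extensions, directed unions, and actions on trees, CAT(0) cube complexes and
2-dimensional CAT(0) complexes (definitions: `MP_8f66f0_al_LQ/Defs`, `MP_8f66f0_al_LQ2/Defs`) -/

set_option autoImplicit false

namespace Pool.Agent.Results.MP_8f66f0_al.CatComplexes

open Pool.Agent.LinAll

/-- Let `LQ` be the least class of groups which contains the groups `GL_d(R)`, for all `d` and all
commutative rings `R`, and is closed under injective homomorphisms (so under isomorphism and
subgroups), directed unions, extensions, and actions on trees and on CAT(0) cube complexes of finite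
dimension with all vertex stabilizers in the class (inversions are allowed; the groups may have
torsion). Let `LQ2` be the least class which contains the torsion free groups of `LQ` (so all torsion
free subgroups of `GL_d(R)`) and is closed under injective homomorphisms, directed unions, extensions,
and actions

* on trees without inversions, with all vertex stabilizers in the class,
* on CAT(0) cube complexes of finite dimension, with the stabilizers of all cubes in the class,
* without inversions on 2-dimensional CAT(0) complexes, with all vertex stabilizers in the class.

There is no condition of local finiteness, and no condition on the stabilizers of the edges of the
trees and of the edges and triangles of the 2-dimensional complexes. For all groups `Γ` in the class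
`LQ2` and all Euclidean domains `L`, `K_1(LΓ)` is generated by the units of `L` and the elements of
`Γ`. For `L = ℤ` this is the vanishing of the Whitehead group of `Γ`, in the form of the frozen
statement. -/
theorem result {Γ : Type} [Group Γ] (h : LQ2 Γ) (L : Type) [CommRing L] [IsDomain L]
    (hL : IsEuc L) : K1Units L Γ :=
  lq2_all h L hL

end Pool.Agent.Results.MP_8f66f0_al.CatComplexes
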