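import Mathlib
import Pool.Agent.Lib.MP_8f66f0_al_Dennis.DetDefs
import Pool.Agent.Lib.MP_8f66f0_al_Nil.ClassDefs
import Pool.Agent.Lib.MP_8f66f0_al_Nil.ClassN

set_option autoImplicit false

namespace Pool.Agent.Results.MP_8f66f0_al.FiniteDimensional

open Pool.Agent.Lib.MP_8f66f0_al_Dennis Pool.Agent.Lib.MP_8f66f0_al_Wreath
  Pool.Agent.Lib.MP_8f66f0_al_Nil

/-- Let `Γ` be a torsion-free group in the class `NilClass`, the smallest class of groups which
contains all linear groups (subgroups of `GL_m(R)`, `R` any commutative ring), the groups
`F ⋊ Aut F` for `F` finitely generated and residually unitriangular (for instance free), the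
groups `Out(F_r)`, and the groups with unique roots of large prime order in which, for large `p`,
every element `c` of infinite order has a mixed cocycle `b` with `b (c; []) ≠ 0` (a nilpotent Euler
class) or infinite order in a representation over a domain of characteristic zero in which `p` is
not a unit, and is closed under subgroups, finite products, finite index overgroups and directed
unions. Then for every invertible matrix `A` over the integral group ring of `Γ` there are an
element `γ` of `Γ` and a sign `ε` such that `det ρ(A) = ε ^ k det ρ(γ)` for every reduced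
commutative ring `E` (for instance every field, of any characteristic) and every representation
`ρ : Γ → GL_k(E)`. (If the Whitehead group of `Γ` vanishes, then `A` is `ε γ` up to stabilization
and elementary matrices and this holds.) -/
theorem result.{w, v, u} (Γ : Type u) [Group Γ]
    (htf : ∀ g : Γ, ∀ n : ℕ, 0 < n → g ^ n = 1 → g = 1) (hΓ : NilClass.{w} Γ)
    (n : ℕ) (A B : Matrix (Fin n) (Fin n) (MonoidAlgebra ℤ Γ)) (hAB : A * B = 1)
    (hBA : B * A = 1) :
    ∃ (γ : Γ) (ε : ℤ), (ε = 1 ∨ ε = -1) ∧ ∀ (E : Type v) [CommRing E] [IsReduced E] (k : ℕ)
      (ρ : Γ →* Matrix.GeneralLinearGroup (Fin k) E),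
      (repMatrix ρ A).det = (ε : E) ^ k * (ρ γ : Matrix (Fin k) (Fin k) E).det :=
  det_of_locally_goodQ (fun H hH => goodQ_of_nilClass htf hΓ H hH) hAB hBA

end Pool.Agent.Results.MP_8f66f0_al.FiniteDimensional
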