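import Pool.Agent.Lib.MP_8f66f0_al_HierZ.FinalNS

/-! # Vanishing of the Nil groups of group rings -/

set_option autoImplicit false

namespace Pool.Agent.Results.MP_8f66f0_al.NilVanishing

open Pool.Agent.WhVan

/-- Let `E` be in the least class `NN` of groups which contains all groups of finite cohomological
dimension and is closed under isomorphism, directed unions, amalgams, HNN extensions and actions
on finite dimensional acyclic complexes. Let `L` be a Euclidean domain. Then `NK_1(LE) = 0`:
`K_1(LE) → K_1(LE[x])` is onto. More generally let `f : Q' → Q` be a homomorphism of `L`-algebras,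
`Q'` free over `L`, such that `LE` is a direct summand of `Q'` as an `L`-module, `Q` is left free
over `Q'` on the words in letters `w_i`, and `w_i q ∈ Q' + ∑ LE w_j` for all `q ∈ Q'`. Then
`K_1(Q') → K_1(Q)` is onto. For `Q' = LE` and `Q = LE[x]` this is the first statement; for the
tensor ring `Q` of an `LE`-bimodule, free as a left module, these are the twisted Nil groups. -/
theorem result {E : Type} [Group E] (hE : NN E) (L : Type) [CommRing L] [IsDomain L]
    (hL : IsEuc L) :
    K1Onto (Polynomial.C : MonoidAlgebra L E →+* Polynomial (MonoidAlgebra L E)) ∧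
    ∀ (Q' Q I : Type) [Ring Q'] [Ring Q] [Algebra L Q'] [Algebra L Q]
      (f : Q' →ₐ[L] Q) (ρ : E →* Q') (w : I → Q), NilData L f ρ w → K1Onto (f : Q' →+* Q) :=
  ⟨nk1_main hE L hL, fun _ _ _ _ _ _ _ f ρ w h => nil_main hE L hL f ρ w h⟩

end Pool.Agent.Results.MP_8f66f0_al.NilVanishing
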